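import Pool.Agent.Helper60_SEP.Stmts

/-! Squad SEP, module TCN: 3-connected graphs are 2-connected and have no opposite cuts. -/

set_option autoImplicit false

open SimpleGraph

namespace Pool.Agent.SEP60.H69

open Pool.Agent.RS80 Pool.Agent.RS81

theorem tcn : TcnStmt := by
  intro V _ B hB
  obtain ⟨h4, h⟩ := hB
  have h1 : ∀ v : V, (B.induce {v}ᶜ).Connected := fun v => by
    have := h v v
    rwa [Set.pair_eq_singleton] at this
  haveI : Nonempty V := (Nat.card_pos_iff.mp (by omega)).1
  refine ⟨⟨by omega, ?_, h1⟩, fun κ _ x y _ => (h x y).preconnected⟩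
  refine (connected_iff_exists_forall_reachable B).mpr ⟨Classical.arbitrary V, fun q => ?_⟩
  set p := Classical.arbitrary V
  obtain ⟨r, hr⟩ : ∃ r : V, r ∉ ({p, q} : Set V) := by
    by_contra hne
    push Not at hne
    have h2 : (Set.univ : Set V) ⊆ {p, q} := fun x _ => hne x
    have h3 := Set.ncard_le_ncard h2 (Set.toFinite _)
    rw [Set.ncard_univ] at h3
    have h5 : ({p, q} : Set V).ncard ≤ 2 := (Set.ncard_insert_le p {q}).trans (by rw [Set.ncard_singleton])
    omega
  have hp : p ∈ ({r}ᶜ : Set V) := fun h => hr (Or.inl (Eq.symm h))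
  have hq : q ∈ ({r}ᶜ : Set V) := fun h => hr (Or.inr (Eq.symm h))
  have h6 := (h1 r).preconnected ⟨p, hp⟩ ⟨q, hq⟩
  exact h6.map (Embedding.induce ({r}ᶜ : Set V)).toHom

end Pool.Agent.SEP60.H69
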